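import Mathlib
import Pool.Agent.TH944.Beal.MainTwo
import Pool.Agent.TH944.Beal.TabTwo

/-!
# `x ^ p + y ^ q = z ^ 2` with squares `x`, `y`: first case theorems

In the style of Sophie Germain.  Let `p` be a prime such that `2 p + 1` is a prime, and let `q` be
odd, not `0, 1, -1` modulo `p` and modulo `2 p + 1`.  Then `x ^ p + y ^ q = z ^ 2` has no solution in
coprime `x, y` which are squares, `x` even and prime to `q`.  The same is true for all primes `p ≠ q`
from `5` to `251` with the possible exceptions `(5, 11), (5, 151), (7, 43), (7, 211)`.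
-/

namespace Pool.Agent.Results.MP_509488_nt.FirstCaseSquareBases

open Pool.Agent.H326R2 Pool.Agent.TH944.Beal

lemma key {p q t : ℕ} (hp : Odd p) (hq : Odd q) (ht : t.Prime) (ht2 : t ≠ 2)
    (haux : Aux 2 p q t) {x y z : ℕ} (hx : Even x) (hxs : IsSquare x) (hys : IsSquare y)
    (hxy : Nat.Coprime x y) (hxq : Nat.Coprime x q) : x ^ p + y ^ q ≠ z ^ 2 := by
  intro h
  obtain ⟨u, rfl⟩ := hxs
  obtain ⟨v, rfl⟩ := hys
  have hu : Even u := by
    rcases Nat.even_or_odd u with h | h
    · exact h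
    · exact absurd hx (Nat.not_even_iff_odd.2 (h.mul h))
  refine main_two p q t hp hq ht ht2 haux (u : ℤ) (v : ℤ) (z : ℤ) ?_
    (Nat.isCoprime_iff_coprime.2 (Nat.Coprime.coprime_mul_right hxq))
    (Nat.isCoprime_iff_coprime.2
      (Nat.Coprime.coprime_mul_right (Nat.Coprime.coprime_mul_right_right hxy))) ?_
  · exact_mod_cast hu
  · have h2 : (u ^ p) ^ 2 + (v ^ q) ^ 2 = z ^ 2 := by
      rw [← h, sq (u ^ p), sq (v ^ q), mul_pow, mul_pow]
    exact_mod_cast h2

/-- **First case theorems for `x ^ p + y ^ q = z ^ 2` with squares `x`, `y`.** -/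
theorem result :
    (∀ p q : ℕ, p.Prime → (2 * p + 1).Prime → Odd q →
      q % p ≠ 0 → q % p ≠ 1 → q % p ≠ p - 1 →
      q % (2 * p + 1) ≠ 0 → q % (2 * p + 1) ≠ 1 → q % (2 * p + 1) ≠ 2 * p →
      ∀ x y z : ℕ, Even x → IsSquare x → IsSquare y → Nat.Coprime x y → Nat.Coprime x q →
        x ^ p + y ^ q ≠ z ^ 2) ∧
    (∀ p q : ℕ, p.Prime → q.Prime → 5 ≤ p → 5 ≤ q → p < 256 → q < 256 → p ≠ q →
      (p, q) ∉ [((5 : ℕ), (11 : ℕ)), (5, 151), (7, 43), (7, 211)] →
      ∀ x y z : ℕ, Even x → IsSquare x → IsSquare y → Nat.Coprime x y → Nat.Coprime x q →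
        x ^ p + y ^ q ≠ z ^ 2) := by
  constructor
  · intro p q hp ht hq h0 h1 h2 k0 k1 k2 x y z hx hxs hys hxy hxq
    have hp1 := hp.one_lt
    have hcast : ∀ (N q r : ℕ), r < N → q % N ≠ r → (q : ZMod N) ≠ (r : ZMod N) := by
      intro N q r hr hq h
      rw [ZMod.natCast_eq_natCast_iff'] at h
      rw [Nat.mod_eq_of_lt hr] at h
      exact hq h
    have hneg : ∀ (N : ℕ), 0 < N → ((N - 1 : ℕ) : ZMod N) = -1 := by
      intro N hN
      have h3 : ((N - 1 + 1 : ℕ) : ZMod N) = 0 := by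
        rw [Nat.sub_add_cancel hN]
        exact ZMod.natCast_self _
      rw [Nat.cast_add, Nat.cast_one] at h3
      exact eq_neg_of_add_eq_zero_left h3
    have e0 : (q : ZMod p) ≠ 0 := by
      have := hcast p q 0 (by omega) h0
      simpa using this
    have e1 : (q : ZMod p) ≠ 1 := by
      have := hcast p q 1 (by omega) h1
      simpa using this
    have e2 : (q : ZMod p) ≠ -1 := by
      rw [← hneg p (by omega)]
      exact hcast p q (p - 1) (by omega) h2
    have f0 : (q : ZMod (2 * p + 1)) ≠ 0 := by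
      have := hcast (2 * p + 1) q 0 (by omega) k0
      simpa using this
    have f1 : (q : ZMod (2 * p + 1)) ≠ 1 := by
      have := hcast (2 * p + 1) q 1 (by omega) k1
      simpa using this
    have f2 : (q : ZMod (2 * p + 1)) ≠ -1 := by
      rw [← hneg (2 * p + 1) (by omega)]
      exact hcast (2 * p + 1) q (2 * p + 1 - 1) (by omega) (by simpa using k2)
    have haux := aux_two p q hp ht hq e0 e1 e2 f0 f1 f2
    have hp5 := five_le p q hp e0 e1 e2
    exact key (hp.odd_of_ne_two (by omega)) hq ht (by omega) haux hx hxs hys hxy hxq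
  · intro p q hp hq hp5 hq5 hp1 hq1 hne hexc x y z hx hxs hys hxy hxq
    obtain ⟨t, ht, ht2, haux⟩ := Pool.Agent.TH944.Beal.TabTwo.exists_aux p q hp hq hp5 hq5 hp1 hq1
      hne hexc
    exact key (hp.odd_of_ne_two (by omega)) (hq.odd_of_ne_two (by omega)) ht ht2 haux hx hxs hys
      hxy hxq

end Pool.Agent.Results.MP_509488_nt.FirstCaseSquareBases
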