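import Pool.Agent.Q16.RI.Uni

/-!
# The Fermat-Catalan equation with two members in the semigroup generated by many random integers

There is an absolute constant `δ > 0` such that for every `B`, all `N ≥ N₀(B)` and all
`k ≤ (log N) ^ (1/100)` every box of `k`-tuples of integers with sides `M_i ≥ N`, which may lie anywhere,
has the following property.  For all but at most `N ^ (-δ) ∏ M_i` of the tuples `A` of the box no sum
`u + v` and no difference `u - v` of two coprime elements `u`, `v`, not both `1`, of the multiplicative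
semigroup generated by the `A_i` is of the form `c w ^ q` with an arbitrary integer `w`, a prime
`q ≤ (log N) ^ B` and a coefficient `c` whose prime divisors are at most `(log N) ^ (19/20)`.

The proof is that of `Pool/Agent/Y353/PS/Loc.lean` and `Loc2.lean` (starting library), made uniform in
`k` and with smooth coefficients.
-/

set_option autoImplicit false

namespace Pool.Agent.Results.MP_509488_nt.RandomIntegers

open Pool.Agent.TH194.BL Pool.Agent.Q16.RI

/-- There are coprime power products `u = ∏ A_i ^ x_i` and `v = ∏ A_i ^ y_i`, not both `1`, a positive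
integer `c` whose prime divisors are at most `Y`, an integer `w ≥ 0` and a prime `q ≤ Z` such that
`u + v = c w ^ q` or `u - v = c w ^ q`. -/
def HasSolution {k : ℕ} (Y Z : ℝ) (A : Fin k → ℕ) : Prop :=
  ∃ (x y : Fin k → ℕ) (c w q : ℕ),
    Nat.Coprime (∏ i, A i ^ x i) (∏ i, A i ^ y i) ∧ (∏ i, A i ^ x i) * (∏ i, A i ^ y i) ≠ 1 ∧
    0 < c ∧ (∀ p : ℕ, p.Prime → p ∣ c → (p : ℝ) ≤ Y) ∧ q.Prime ∧ (q : ℝ) ≤ Z ∧
    (∏ i, A i ^ x i + ∏ i, A i ^ y i = c * w ^ q ∨ ∏ i, A i ^ x i = ∏ i, A i ^ y i + c * w ^ q)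

/-- There is `δ > 0` such that for every `B` and all large `N`, all `k ≤ (log N) ^ (1/100)` and all boxes
`∏ (a_i, a_i + M_i]` with sides `M_i ≥ N` at most `N ^ (-δ) ∏ M_i` of the integral points of the box have a
solution with `Y = (log N) ^ (19/20)` and `Z = (log N) ^ B`. -/
theorem result : ∃ δ : ℝ, 0 < δ ∧ ∀ B : ℕ, ∃ N₀ : ℕ, ∀ N : ℕ, N₀ ≤ N →
    ∀ k : ℕ, (k : ℝ) ≤ Real.log N ^ (1 / 100 : ℝ) → ∀ a M : Fin k → ℕ, (∀ i, N ≤ M i) →
      ({A : Fin k → ℕ | (∀ i, a i < A i ∧ A i ≤ a i + M i) ∧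
        HasSolution (Real.log N ^ (19 / 20 : ℝ)) (Real.log N ^ B) A}.ncard : ℝ) ≤
        (N : ℝ) ^ (-δ) * ∏ i, (M i : ℝ) := by
  classical
  obtain ⟨δ, hδ, -, h⟩ := power_saving_uni
  refine ⟨δ, hδ, fun B => ?_⟩
  obtain ⟨N₀, g⟩ := h B
  refine ⟨N₀, fun N hN k hk a M hM => ?_⟩
  have hfin : {A : Fin k → ℕ | (∀ i, a i < A i ∧ A i ≤ a i + M i) ∧
      HasSolution (Real.log N ^ (19 / 20 : ℝ)) (Real.log N ^ B) A}.Finite := by
    apply Set.Finite.subset (Set.Finite.pi' fun i => Set.finite_Ioc (a i) (a i + M i))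
    rintro A ⟨hA, -⟩ i
    exact ⟨(hA i).1, (hA i).2⟩
  rw [Set.ncard_eq_toFinset_card _ hfin]
  apply g N hN k hk a M hM
  intro A hA
  rw [Set.Finite.mem_toFinset] at hA
  obtain ⟨h1, x, y, c, w, q, h2, h3, h4, h5, hq, hqB, h6⟩ := hA
  exact ⟨h1, q, q, hq, dvd_rfl, hqB, fun i => lt_of_le_of_lt (Nat.zero_le _) (h1 i).1, x, y, c, w,
    h2, h3, h4, h5, h6⟩

end Pool.Agent.Results.MP_509488_nt.RandomIntegers
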