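import Mathlib
import Pool.Agent.TH193.RS.Main2

/-!
# The Fermat-Catalan equation with two members composed of random primes

Let `M` be fixed and let `N` be large. For all but a proportion `exp (-c log N / log log N)` of the
`k`-tuples `(p 1, ..., p k)` of primes `p i ≤ N i` (where all `N i ≥ N` and `k ≤ (log N) ^ (1/10)`) the
equation `x ^ p + y ^ q = z ^ r` (and the equation `y ^ q + z ^ r = x ^ p`) has no solution at all in
coprime positive `x`, `y`, `z`, where `x` and `y` are composed of the primes `p 1, ..., p k`, not both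
`1`, the exponents `p`, `q ≥ 1` are arbitrary and `r ≤ M` is a prime; `z` is arbitrary. More generally no
number `c C ^ r`, `c` composed of the `p i` and of primes up to `(log N) ^ (1/10)`, `C` arbitrary, is the
difference of two coprime numbers composed of the `p i` (or the sum, if `r` or `c` is odd).
-/

set_option autoImplicit false

namespace Pool.Agent.Results.MP_509488_nt.RandomPrimes

open Finset

/-- all the prime divisors of `n` are among `p 1, ..., p k` -/
def Composed {k : ℕ} (p : Fin k → ℕ) (n : ℕ) : Prop := ∀ r : ℕ, r.Prime → r ∣ n → ∃ i, r = p i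

/-- all the prime divisors of `n` are at most `K` or among `p 1, ..., p k` -/
def AlmostComposed {k : ℕ} (K : ℕ) (p : Fin k → ℕ) (n : ℕ) : Prop :=
  ∀ r : ℕ, r.Prime → r ∣ n → r ≤ K ∨ ∃ i, r = p i

/-- there are coprime positive integers `a`, `b` composed of the `p i`, not both `1`, a positive integer
`c` composed of the `p i` and of primes `≤ K`, a positive integer `C` and a prime `m ≤ M` such that
`a = b + c C ^ m`, or `m` or `c` is odd and `a + b = c C ^ m` -/
def PowerValue {k : ℕ} (K M : ℕ) (p : Fin k → ℕ) : Prop :=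
  ∃ a b c C m : ℕ, 0 < a ∧ 0 < b ∧ a.Coprime b ∧ Composed p a ∧ Composed p b ∧ 1 < a * b ∧
    0 < c ∧ AlmostComposed K p c ∧ 0 < C ∧ m.Prime ∧ m ≤ M ∧
    (a = b + c * C ^ m ∨ ((Odd m ∨ Odd c) ∧ a + b = c * C ^ m))

/-- the Fermat-Catalan equation `x ^ e + y ^ f = z ^ r` or `y ^ f + z ^ r = x ^ e` has a solution with
coprime positive `x`, `y` composed of the `p i`, not both `1`, a positive `z`, exponents `e`, `f ≥ 1`
and a prime `r ≤ M` -/
def FermatCatalan {k : ℕ} (M : ℕ) (p : Fin k → ℕ) : Prop :=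
  ∃ x y z e f r : ℕ, 0 < x ∧ 0 < y ∧ 0 < z ∧ x.Coprime y ∧ Composed p x ∧ Composed p y ∧ 1 < x * y ∧
    0 < e ∧ 0 < f ∧ r.Prime ∧ r ≤ M ∧ (x ^ e + y ^ f = z ^ r ∨ y ^ f + z ^ r = x ^ e)

/-- the `k`-tuples of primes `p i ≤ N' i` -/
def primeTuples {k : ℕ} (N' : Fin k → ℕ) : Finset (Fin k → ℕ) :=
  Fintype.piFinset (fun i => (Icc 1 (N' i)).filter Nat.Prime)

theorem FermatCatalan.powerValue {k : ℕ} {K M : ℕ} {p : Fin k → ℕ} (h : FermatCatalan M p) :
    PowerValue K M p := by
  obtain ⟨x, y, z, e, f, r, hx, hy, hz, hxy, hcx, hcy, h1, he, hf, hr, hrM, heq⟩ := h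
  refine ⟨x ^ e, y ^ f, 1, z, r, pow_pos hx e, pow_pos hy f, Nat.Coprime.pow e f hxy, ?_, ?_, ?_,
    one_pos, ?_, hz, hr, hrM, ?_⟩
  · intro q hq hd
    exact hcx q hq (hq.dvd_of_dvd_pow hd)
  · intro q hq hd
    exact hcy q hq (hq.dvd_of_dvd_pow hd)
  · have e1 : x ≤ x ^ e := Nat.le_self_pow he.ne' x
    have e2 : y ≤ y ^ f := Nat.le_self_pow hf.ne' y
    exact lt_of_lt_of_le h1 (Nat.mul_le_mul e1 e2)
  · intro q hq hd
    exact absurd (Nat.dvd_one.1 hd) hq.one_lt.ne'
  · rcases heq with h | h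
    · right
      exact ⟨Or.inr odd_one, by rw [one_mul]; exact h⟩
    · left
      rw [one_mul]
      exact h.symm

open Classical in
/-- **Theorem.** For every `M` there is `c > 0` such that for all large `N`, all `k, K ≤ (log N) ^ (1/10)`
and all `N' 1, ..., N' k ≥ N`: at most `exp (-c log N / log log N) ∏ π(N' i)` of the `k`-tuples of
primes `p i ≤ N' i` have the property `PowerValue K M`, in particular at most so many the property
`FermatCatalan M`. -/
theorem result (M : ℕ) : ∃ c : ℝ, 0 < c ∧ ∃ N₀ : ℕ, ∀ N : ℕ, N₀ ≤ N →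
    ∀ k K : ℕ, (k : ℝ) ≤ Real.log N ^ (1 / 10 : ℝ) → (K : ℝ) ≤ Real.log N ^ (1 / 10 : ℝ) →
    ∀ N' : Fin k → ℕ, (∀ i, N ≤ N' i) →
      (((primeTuples N').filter (fun p => FermatCatalan M p)).card : ℝ) ≤
          ((primeTuples N').filter (fun p => PowerValue K M p)).card ∧
      (((primeTuples N').filter (fun p => PowerValue K M p)).card : ℝ) ≤
        Real.exp (-c * (Real.log N / Real.log (Real.log N))) *
          ∏ i, (Nat.primeCounting (N' i) : ℝ) := by
  obtain ⟨c, hc, N₀, h⟩ := Pool.Agent.TH193.RS.main2 M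
  refine ⟨c, hc, N₀, fun N hN k K hk hK N' hN' => ⟨?_, ?_⟩⟩
  · apply Nat.cast_le.2
    apply card_le_card
    intro p hp
    rw [mem_filter] at hp ⊢
    exact ⟨hp.1, hp.2.powerValue⟩
  · exact h N hN k K hk hK N' hN'

end Pool.Agent.Results.MP_509488_nt.RandomPrimes
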