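import Mathlib
import Pool.Agent.TH888.F.Main

/-!
# The Fermat-Catalan equation with one small base, in short intervals for the second base

All exponents and the third base are free.  For every `K`, every `ε > 0` and every `δ > 0` there is
`L` such that in every interval `(b, b + Y]` with `Y ≥ L` and `b ≤ Y ^ (2 - δ)` (so `Y` may be as
small as the power `1 / 2 + δ'` of the size of the integers in the interval) all but `ε Y` of the
integers `B` have the following property: for no integer `2 ≤ A ≤ K` prime to `B` is one of the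
numbers `A ^ x + B ^ y`, `|A ^ x - B ^ y|` (`x, y ≥ 1`) a perfect power `C ^ z`, `z ≥ 2`.
-/

set_option autoImplicit false

open Finset

namespace Pool.Agent.Results.MP_509488_nt.SmallBasesShortIntervals

/-- `A` and `B` are two of the three bases of a solution: one of the numbers `A ^ x + B ^ y`,
`B ^ y - A ^ x`, `A ^ x - B ^ y` (`x, y ≥ 1`) is a perfect power `C ^ z` with `C ≥ 1`, `z ≥ 2`. -/
def TwoBases (A B : ℕ) : Prop :=
  ∃ x y z C : ℕ, 0 < x ∧ 0 < y ∧ 2 ≤ z ∧ 0 < C ∧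
    (A ^ x + B ^ y = C ^ z ∨ A ^ x + C ^ z = B ^ y ∨ B ^ y + C ^ z = A ^ x)

/-- For all `K`, `ε > 0`, `δ > 0` there is `L` such that for all `Y ≥ L` and `b ≤ Y ^ (2 - δ)` at
most `ε Y` integers `B` in `(b, b + Y]` are, together with some `A` prime to `B`, `2 ≤ A ≤ K`, two of
the three bases of a solution. -/
theorem result : ∀ (K : ℕ) (ε δ : ℝ), 0 < ε → 0 < δ → ∃ L : ℕ, ∀ Y : ℕ, L ≤ Y → ∀ b : ℕ,
    (b : ℝ) ≤ (Y : ℝ) ^ (2 - δ) →
      (({B : ℕ | B ∈ Set.Ioc b (b + Y) ∧ ∃ A : ℕ, 2 ≤ A ∧ A ≤ K ∧ Nat.Coprime A B ∧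
        TwoBases A B}.ncard : ℕ) : ℝ) ≤ ε * Y := by
  classical
  intro K ε δ hε hδ
  -- we may assume `δ ≤ 1`
  set δ' : ℝ := min δ 1 with hδ'
  have hδ0 : 0 < δ' := lt_min hδ one_pos
  have hδ1 : δ' ≤ 1 := min_le_right _ _
  have hδδ : δ' ≤ δ := min_le_left _ _
  have hall : ∀ A : ℕ, ∃ L : ℕ, 2 ≤ A → ∀ Y : ℕ, L ≤ Y → ∀ b : ℕ, (b : ℝ) ≤ (Y : ℝ) ^ (2 - δ') →
      (({B : ℕ | B ∈ Set.Ioc b (b + Y) ∧ Nat.Coprime A B ∧ TwoBases A B}.ncard : ℕ) : ℝ) ≤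
        (ε / (K + 1)) * Y := by
    intro A
    by_cases hA : 2 ≤ A
    · obtain ⟨L, hL⟩ := Pool.Agent.TH888.F.main A hA (ε := ε / (K + 1)) (δ := δ') (by positivity)
        hδ0 hδ1
      exact ⟨L, fun _ => hL⟩
    · exact ⟨0, fun h => absurd h hA⟩
  choose L hL using hall
  refine ⟨(Finset.Icc 2 K).sup L + 1, fun Y hY b hb => ?_⟩
  have hY1 : 1 ≤ Y := by omega
  have hY1R : (1 : ℝ) ≤ Y := by exact_mod_cast hY1
  have hb' : (b : ℝ) ≤ (Y : ℝ) ^ (2 - δ') :=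
    hb.trans (Real.rpow_le_rpow_of_exponent_le hY1R (by linarith))
  set E : ℕ → Set ℕ := fun A =>
    {B : ℕ | B ∈ Set.Ioc b (b + Y) ∧ Nat.Coprime A B ∧ TwoBases A B} with hE
  have hsub : {B : ℕ | B ∈ Set.Ioc b (b + Y) ∧ ∃ A : ℕ, 2 ≤ A ∧ A ≤ K ∧ Nat.Coprime A B ∧
      TwoBases A B} ⊆ ⋃ A ∈ Finset.Icc 2 K, E A := by
    rintro B ⟨hB, A, hA, hAK, hAB, hT⟩
    rw [Set.mem_iUnion₂]
    exact ⟨A, Finset.mem_Icc.mpr ⟨hA, hAK⟩, hB, hAB, hT⟩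
  have hfin : (⋃ A ∈ Finset.Icc 2 K, E A).Finite := by
    refine (Set.finite_Ioc b (b + Y)).subset ?_
    intro B hB
    rw [Set.mem_iUnion₂] at hB
    obtain ⟨A, -, h⟩ := hB
    exact h.1
  have h1 : (⋃ A ∈ Finset.Icc 2 K, E A).ncard ≤ ∑ A ∈ Finset.Icc 2 K, (E A).ncard :=
    Finset.set_ncard_biUnion_le _ _
  have h2 : ∀ A ∈ Finset.Icc 2 K, ((E A).ncard : ℝ) ≤ (ε / (K + 1)) * Y := by
    intro A hA
    refine hL A (Finset.mem_Icc.mp hA).1 Y ?_ b hb'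
    have : L A ≤ (Finset.Icc 2 K).sup L := Finset.le_sup hA
    omega
  have hcard : ((Finset.Icc 2 K).card : ℝ) ≤ K + 1 := by
    have : (Finset.Icc 2 K).card ≤ K + 1 := by
      rw [Nat.card_Icc]
      omega
    exact_mod_cast this
  calc (({B : ℕ | B ∈ Set.Ioc b (b + Y) ∧ ∃ A : ℕ, 2 ≤ A ∧ A ≤ K ∧ Nat.Coprime A B ∧
        TwoBases A B}.ncard : ℕ) : ℝ)
      ≤ ((⋃ A ∈ Finset.Icc 2 K, E A).ncard : ℝ) :=
        Nat.cast_le.mpr (Set.ncard_le_ncard hsub hfin)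
    _ ≤ ((∑ A ∈ Finset.Icc 2 K, (E A).ncard : ℕ) : ℝ) := Nat.cast_le.mpr h1
    _ = ∑ A ∈ Finset.Icc 2 K, ((E A).ncard : ℝ) := by push_cast; rfl
    _ ≤ ∑ A ∈ Finset.Icc 2 K, (ε / (K + 1)) * Y := Finset.sum_le_sum h2
    _ = (Finset.Icc 2 K).card * ((ε / (K + 1)) * Y) := by rw [sum_const, nsmul_eq_mul]
    _ ≤ (K + 1) * ((ε / (K + 1)) * Y) := mul_le_mul_of_nonneg_right hcard (by positivity)
    _ = ε * Y := by
      have : (K : ℝ) + 1 ≠ 0 := by positivity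
      field_simp

end Pool.Agent.Results.MP_509488_nt.SmallBasesShortIntervals
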